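import Mathlib
import Pool.Agent.Work.MP_2bd3fb_al.Wreath
import Pool.Agent.Work.MP_2bd3fb_al.Alt
import Pool.Agent.Work.MP_2bd3fb_al.NonInt

set_option autoImplicit false

namespace Pool.Agent.Results.MP_2bd3fb_al.NonIntegrable

open Pool.Agent.Work.MP_2bd3fb_al
open scoped commutatorElement

theorem exists_bound (S : Set (W U)) (hS : S.Finite) :
    ∃ n, 5 ≤ n ∧ ∀ x ∈ S, ∀ i, ((x.f i : U) : Equiv.Perm ℕ) ∈ A n := by
  classical
  have h1 : ∀ x : W U, ∃ n, ∀ i, ((x.f i : U) : Equiv.Perm ℕ) ∈ A n := by
    intro x
    obtain ⟨n, hn⟩ := mem_U.1 (x.f false).2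
    obtain ⟨m, hm⟩ := mem_U.1 (x.f true).2
    refine ⟨max n m, fun i => ?_⟩
    cases i
    · exact A_mono (le_max_left _ _) hn
    · exact A_mono (le_max_right _ _) hm
  choose N hN using h1
  obtain ⟨M, hM⟩ := (hS.image N).bddAbove
  refine ⟨max 5 M, le_max_left _ _, fun x hx i => A_mono ?_ (hN x i)⟩
  exact (hM ⟨x, hx, rfl⟩).trans (le_max_right _ _)

/-- The subgroup of `W U` with coordinates in `A n`. -/
noncomputable def F (n : ℕ) : Subgroup (W U) where
  carrier := {x | ∀ i, ((x.f i : U) : Equiv.Perm ℕ) ∈ A n}
  one_mem' := fun _ => (A n).one_mem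
  mul_mem' := fun {_ _} hx hy i => (A n).mul_mem (hx i) (hy _)
  inv_mem' := fun {_} hx _ => (A n).inv_mem (hx _)

theorem W_finite (M : Type*) [Group M] [Finite M] : Finite (W M) := by
  refine Finite.of_injective (fun x : W M => ((x.f, x.c) : (Bool → M) × Bool)) ?_
  intro x y h
  exact W.ext (congrArg Prod.fst h) (congrArg Prod.snd h)

theorem F_finite (n : ℕ) : Finite (F n) := by
  have := A_finite n
  let g : F n → (Bool → A n) × Bool := fun x => (fun i => ⟨(x.1.f i : U), x.2 i⟩, x.1.c)
  refine Finite.of_injective g ?_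
  intro x y h
  have h1 := congrArg Prod.fst h
  have h2 := congrArg Prod.snd h
  apply Subtype.ext
  apply W.ext
  · funext i
    have h3 := congrFun h1 i
    have h4 := congrArg Subtype.val h3
    exact Subtype.ext h4
  · exact h2

theorem alt_perfect (n : ℕ) (hn : 5 ≤ n) : commutator (alternatingGroup (Fin n)) = ⊤ := by
  have hs : IsSimpleGroup (alternatingGroup (Fin n)) :=
    alternatingGroup.isSimpleGroup (by simpa using hn)
  have h : (commutator (alternatingGroup (Fin n))).Normal := inferInstance
  rcases h.eq_bot_or_eq_top with h | h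
  · exfalso
    let a : Fin n := ⟨0, by omega⟩
    let b : Fin n := ⟨1, by omega⟩
    let c : Fin n := ⟨2, by omega⟩
    let d : Fin n := ⟨3, by omega⟩
    have hab : a ≠ b := by simp [a, b, Fin.ext_iff]
    have hac : a ≠ c := by simp [a, c, Fin.ext_iff]
    have had : a ≠ d := by simp [a, d, Fin.ext_iff]
    have hbc : b ≠ c := by simp [b, c, Fin.ext_iff]
    have hbd : b ≠ d := by simp [b, d, Fin.ext_iff]
    have hcd : c ≠ d := by simp [c, d, Fin.ext_iff]
    have hx : Equiv.swap a b * Equiv.swap b c ∈ alternatingGroup (Fin n) := by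
      rw [Equiv.Perm.mem_alternatingGroup, map_mul, Equiv.Perm.sign_swap hab,
        Equiv.Perm.sign_swap hbc]; rfl
    have hy : Equiv.swap a b * Equiv.swap b d ∈ alternatingGroup (Fin n) := by
      rw [Equiv.Perm.mem_alternatingGroup, map_mul, Equiv.Perm.sign_swap hab,
        Equiv.Perm.sign_swap hbd]; rfl
    have h1 : ⁅(⟨_, hx⟩ : alternatingGroup (Fin n)), ⟨_, hy⟩⁆ ∈
        commutator (alternatingGroup (Fin n)) :=
      Subgroup.commutator_mem_commutator (Subgroup.mem_top _) (Subgroup.mem_top _)
    rw [h, Subgroup.mem_bot, commutatorElement_eq_one_iff_mul_comm] at h1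
    have h2 := congrArg (fun p : alternatingGroup (Fin n) => (p : Equiv.Perm (Fin n)) c) h1
    have h3 : Equiv.swap a b (Equiv.swap b c (Equiv.swap a b (Equiv.swap b d c))) =
        Equiv.swap a b (Equiv.swap b d (Equiv.swap a b (Equiv.swap b c c))) := h2
    rw [Equiv.swap_apply_of_ne_of_ne hbc.symm hcd, Equiv.swap_apply_of_ne_of_ne hac.symm hbc.symm,
      Equiv.swap_apply_right, Equiv.swap_apply_right,
      Equiv.swap_apply_of_ne_of_ne hab had, Equiv.swap_apply_left] at h3
    exact hab h3
  · exact h

/-- There is a locally finite group `G` such that every finite subset of `G` lies in a finite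
subgroup of `G` which is isomorphic to the derived subgroup of a finite group, while `G` itself is
not isomorphic to the derived subgroup of any group. -/
theorem result.{u} :
    ∃ (G : Type) (_ : Group G),
      (∀ K : Subgroup G, K.FG → Finite K) ∧
      (∀ S : Set G, S.Finite → ∃ K : Subgroup G, S ⊆ K ∧ Finite K ∧
        ∃ (H : Type) (_ : Group H), Finite H ∧ Nonempty (commutator H ≃* K)) ∧
      ∀ (H : Type u) [Group H], IsEmpty (commutator H ≃* G) := by
  have hsimple := U_simple
  refine ⟨W U, inferInstance, ?_, ?_, ?_⟩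
  · intro K hK
    obtain ⟨S, hS, hfin⟩ := (Subgroup.fg_iff K).1 hK
    obtain ⟨n, _, hn⟩ := exists_bound S hfin
    have hle : K ≤ F n := by
      rw [← hS, Subgroup.closure_le]
      exact hn
    have := F_finite n
    exact Finite.of_injective (Subgroup.inclusion hle) (Subgroup.inclusion_injective hle)
  · intro S hS
    obtain ⟨n, hn5, hn⟩ := exists_bound S hS
    let X := alternatingGroup (Fin n)
    let jn : X × X →* U := (j n).comp ((fA n).prodMap (fA n))
    have hjn : Function.Injective jn :=
      (j_injective n).comp (Function.Injective.prodMap (fA_injective n) (fA_injective n))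
    have hXX : Finite (W (X × X)) := W_finite _
    have hX : Finite (W X) := W_finite _
    refine ⟨(W.map jn).range, ?_, ?_, W (W X), inferInstance, W_finite _, ?_⟩
    · intro x hx
      have h1 : ∀ i, ∃ p, jn p = x.f i := by
        intro i
        obtain ⟨τ, hτ⟩ := mem_range_fA.2 (hn x hx i)
        refine ⟨(τ, 1), ?_⟩
        have h2 : jn (τ, 1) = j n (fA n τ, 1) := by
          change j n (fA n τ, fA n 1) = _
          rw [map_one]
        rw [h2, hτ]
        exact j_left n (x.f i) (hn x hx i)
      choose p hp using h1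
      refine ⟨⟨p, x.c⟩, ?_⟩
      apply W.ext
      · funext i; exact hp i
      · rfl
    · exact Finite.of_surjective _ (W.map jn).rangeRestrict_surjective
    · refine ⟨?_⟩
      have e1 : W (X × X) ≃* (W.map jn).range :=
        MonoidHom.ofInjective (W.map_injective hjn)
      have e2 : W (X × X) ≃* (W.psi X).range := MonoidHom.ofInjective (W.psi_injective X)
      have e3 : (W.psi X).range ≃* commutator (W (W X)) :=
        MulEquiv.subgroupCongr (W.range_psi X (alt_perfect n hn5))
      exact (e3.symm.trans e2.symm).trans e1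
  · intro H _
    exact ⟨fun e => not_integrable U_noncomm U_perfect e⟩

end Pool.Agent.Results.MP_2bd3fb_al.NonIntegrable
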